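import Pool.Agent.Work.MP_e487d8_al.Y.Final

/-! MP_e487d8_al: for a symmetrizable generalised Cartan matrix, a reduced word `w` of length `m` and
the KLR algebras with arbitrary homogeneous parameters `Q_{ij}(u,v)` over any field, every maximal
stably irreducible family of `w`-adapted irreducible modules is `m`-generated. Moreover, up to
isomorphism and shifts of the grading, such a family is the free commutative monoid (without its
unit element) on its atomic members, and there are exactly `m` of them. -/

set_option autoImplicit false

namespace Pool.Agent.Results.MP_e487d8_al.KlrFree

open Pool.Agent.KLS (Datum)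
open Pool.Agent.KLS.St

theorem result {K I : Type} [Field K] [Fintype I] [DecidableEq I] (D : Datum K I) (w : List I)
    (hw : Reduced D.A w) (L : Set (GMod D)) (hL : IsMaxFamily w L) :
    IsGenerated w.length L ∧
      ∃ P : Set (GMod D), P.Finite ∧ P.ncard = w.length ∧ IsFreeOn P L :=
  Pool.Agent.KLS.St.final D w hw L hL

end Pool.Agent.Results.MP_e487d8_al.KlrFree
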